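import Pool.Agent.H15.TG.Targets

/-! MP_51eb24_ag, board tga_modules, row CKF. -/

set_option autoImplicit false

namespace Pool.Agent.H49.TGA

open MvPolynomial Pool.Agent.H2.ST Pool.Agent.H15.TG

section general

variable {k A : Type} [Field k] [CommRing A] [Algebra k A]

theorem unit_notMem {J : Ideal A} (hJ : J.IsPrime) {c : k} (hc : c ≠ 0) :
    algebraMap k A c ∉ J := by
  intro h
  apply hJ.ne_top
  rw [Ideal.eq_top_iff_one]
  have h2 : algebraMap k A c⁻¹ * algebraMap k A c ∈ J := J.mul_mem_left _ h
  rwa [← map_mul, inv_mul_cancel₀ hc, map_one] at h2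

/-- over an algebraically closed field: an element which is algebraic modulo a prime ideal is
constant modulo this ideal -/
theorem const_mod [IsAlgClosed k] {J : Ideal A} (hJ : J.IsPrime) (y : A) :
    ∀ (n : ℕ) (Q : Polynomial k), Q ≠ 0 → Q.natDegree = n → Polynomial.aeval y Q ∈ J →
      ∃ c : k, y - algebraMap k A c ∈ J := by
  intro n
  induction n with
  | zero =>
    intro Q hQ hn hm
    exfalso
    obtain ⟨c, rfl⟩ := Polynomial.natDegree_eq_zero.1 hn
    rw [Polynomial.aeval_C] at hm
    refine unit_notMem hJ (c := c) ?_ hm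
    rintro rfl
    exact hQ (by simp)
  | succ n ih =>
    intro Q hQ hn hm
    have hd : Q.degree ≠ 0 := by
      intro h
      have h0 := Polynomial.natDegree_eq_zero_iff_degree_le_zero.2 (le_of_eq h)
      omega
    obtain ⟨r, hr⟩ := IsAlgClosed.exists_root Q hd
    obtain ⟨Q', rfl⟩ := Polynomial.dvd_iff_isRoot.2 hr
    rw [map_mul, map_sub, Polynomial.aeval_X, Polynomial.aeval_C] at hm
    rcases hJ.mem_or_mem hm with h | h
    · exact ⟨r, h⟩
    · have hQ' : Q' ≠ 0 := right_ne_zero_of_mul hQ
      refine ih Q' hQ' ?_ h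
      rw [Polynomial.natDegree_mul (left_ne_zero_of_mul hQ) hQ', Polynomial.natDegree_X_sub_C] at hn
      omega

theorem const_of_not_imod [IsAlgClosed k] {J : Ideal A} (hJ : J.IsPrime) (y : A)
    (h : ¬ Imod k J (fun _ : Unit => y)) : ∃ c : k, y - algebraMap k A c ∈ J := by
  unfold Imod at h
  push Not at h
  obtain ⟨P, hP, hP0⟩ := h
  have h1 : Polynomial.aeval y (aeval (fun _ : Unit => (Polynomial.X : Polynomial k)) P) =
      aeval (fun _ : Unit => y) P := by
    have h2 := MvPolynomial.comp_aeval_apply (fun _ : Unit => (Polynomial.X : Polynomial k))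
      (Polynomial.aeval y) P
    rw [h2]
    simp only [Polynomial.aeval_X]
  refine const_mod hJ y _ (aeval (fun _ : Unit => (Polynomial.X : Polynomial k)) P) ?_ rfl
    (by rw [h1]; exact hP)
  intro h0
  apply hP0
  have h3 : (uniqueAlgEquiv k Unit) P = aeval (fun _ : Unit => (Polynomial.X : Polynomial k)) P := by
    have h4 : ((uniqueAlgEquiv k Unit : MvPolynomial Unit k ≃ₐ[k] Polynomial k) :
        MvPolynomial Unit k →ₐ[k] Polynomial k) =
        aeval (fun _ : Unit => (Polynomial.X : Polynomial k)) := by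
      apply MvPolynomial.algHom_ext
      intro i
      simp
    exact congrArg (fun φ : MvPolynomial Unit k →ₐ[k] Polynomial k => φ P) h4
  rw [h0] at h3
  exact (map_eq_zero_iff _ (uniqueAlgEquiv k Unit).injective).1 h3

end general

section bracket

variable {k : Type} [Field k] {m : ℕ}

theorem br_prod_mem (J : Ideal (Pol k m)) (y : Pol k m) {ι : Type} (s : Finset ι)
    (g : ι → Pol k m) (a : ι → ℕ) (h : ∀ i, br (g i) y ∈ J) : br (∏ i ∈ s, g i ^ a i) y ∈ J := by
  apply Finset.prod_induction (fun i => g i ^ a i) (fun x => br x y ∈ J)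
  · intro x x' hx hx'
    rw [mul_br]
    exact J.add_mem (J.mul_mem_left _ hx') (J.mul_mem_left _ hx)
  · have : br (1 : Pol k m) y = 0 := by
      rw [br_anti, br_one, neg_zero]
    rw [this]
    exact J.zero_mem
  · intro i _
    rw [br_anti, br_pow, br_anti y (g i), mul_neg, neg_neg]
    exact J.mul_mem_left _ (h i)

end bracket

theorem pf_CKF (hAI1 : T_AI1) (hAI2 : T_AI2) (hAI3 : T_AI3) (hPPC : T_PPC) (hFCP : T_FCP) :
    T_CKF := by
  intro k _ _ _ m d W K H f π ψ a c0 M c y hc hyK hy0 hy
  classical
  have hp : Prime (f - C c) := hFCP k m d W K H f π ψ a c0 M c hc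
  have hC : ∀ c' : k, (C c' : Pol k m) = algebraMap k (Pol k m) c' := fun _ => rfl
  set p : Pol k m := f - C c with hpd
  have hJ : (Ideal.span {p}).IsPrime := (Ideal.span_singleton_prime hp.ne_zero).2 hp
  have hmem : ∀ x : Pol k m, x ∈ Ideal.span {p} ↔ p ∣ x := fun x => Ideal.mem_span_singleton
  by_cases hI : Imod k (Ideal.span {p}) (fun _ : Unit => y)
  swap
  · obtain ⟨c', hc'⟩ := const_of_not_imod hJ y hI
    exact ⟨c', (hmem _).1 hc'⟩
  exfalso
  -- facts on the primes
  have hπf : ∀ l, π l ∣ f := by
    intro l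
    rw [M.fe]
    refine dvd_mul_of_dvd_right ?_ _
    exact (dvd_pow_self _ (M.ap l).ne').trans (Finset.dvd_prod_of_mem _ (Finset.mem_univ l))
  have hπJ : ∀ l, π l ∉ Ideal.span {p} := by
    intro l hl
    rw [hmem] at hl
    have h1 : π l ∣ p := hp.irreducible.dvd_symm (M.pp l).irreducible hl
    have h2 : π l ∣ C c := by
      have h3 : (C c : Pol k m) = f - p := by rw [hpd]; ring
      rw [h3]
      exact dvd_sub (hπf l) h1
    have h4 : IsUnit (C c : Pol k m) := (isUnit_iff_ne_zero.2 hc).map (C : k →+* Pol k m)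
    exact (M.pp l).not_unit (isUnit_of_dvd_unit h2 h4)
  have hK : ∀ l, π l ∈ K ∧ br f (π l) = 0 := fun l => mem_Cf.1 (M.hp l)
  have hpK : p ∈ K := K.sub_mem M.fK (K.algebraMap_mem c)
  have hp0 : p ∈ W 0 := (W 0).sub_mem M.f0 (algebraMap_mem_gr M.toGr c)
  have hbp : ∀ g, br g p = br g f := by
    intro g
    rw [hpd, br_sub, br_C, sub_zero]
  have hpb : ∀ g, br p g = br f g := by
    intro g
    rw [hpd, sub_br, C_br, sub_zero]
  -- an element which moves `p`
  obtain ⟨z, hzK, hz⟩ : ∃ z ∈ K, ¬ p ∣ br p z := by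
    by_contra hcon
    push Not at hcon
    obtain ⟨c1, hc1⟩ := M.cn p hpK hcon
    by_cases h0 : c1 = 0
    · rw [h0, map_zero] at hc1
      exact hp.ne_zero hc1
    · apply hp.not_unit
      rw [hc1]
      exact (isUnit_iff_ne_zero.2 h0).map (C : k →+* Pol k m)
  -- first step
  have hlin : LinearIndependent ℤ (fun j : Fin d => ψ j.succ) := by
    rw [Fintype.linearIndependent_iff]
    intro g hg
    obtain ⟨N, hN⟩ := M.rl (Fin.cons 0 g) (by
      rw [Fin.sum_univ_succ]
      simp only [Fin.cons_zero, Fin.cons_succ, zero_smul, zero_add]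
      exact hg)
    have h0 := hN 0
    rw [Fin.cons_zero] at h0
    have ha : (a 0 : ℤ) ≠ 0 := by
      have := M.ap 0
      exact_mod_cast this.ne'
    have hN0 : N = 0 := by
      rcases mul_eq_zero.1 h0.symm with h | h
      · exact h
      · exact absurd h ha
    intro i
    have h1 := hN i.succ
    rw [Fin.cons_succ, hN0, zero_mul] at h1
    exact h1
  have I1 : Imod k (Ideal.span {p}) (Sum.elim (fun _ : Unit => y) (fun j : Fin d => π j.succ)) := by
    refine hAI3 k (Pol k m) (Fin d → ℤ) Unit (Fin d) W M.toGr (Ideal.span {p}) (fun _ => y)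
      (fun j => π j.succ) (fun j => ψ j.succ) hJ ?_ (fun _ => hy0) (fun j => M.wp j.succ)
      (fun j => hπJ j.succ) hlin hI
    intro x hx b
    rw [hmem] at hx ⊢
    obtain ⟨w, rfl⟩ := hx
    have h1 := cmp_mul_of_mem M.toGr hp0 w b
    rw [add_zero] at h1
    rw [mul_comm p w, h1]
    exact dvd_mul_left _ _
  -- second step
  let D : Fin d ⊕ Unit → Derivation k (Pol k m) (Pol k m) :=
    Sum.elim (fun l => ad (π l.succ)) (fun _ => ad f)
  have hDp : ∀ i, D i p = 0 := by
    rintro (l | l)
    · change ad (π l.succ) p = 0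
      rw [ad_apply, hbp, br_anti, (hK l.succ).2, neg_zero]
    · change ad f p = 0
      rw [ad_apply, hbp, br_self]
  have I2 : Imod k (Ideal.span {p}) (Sum.elim
      (Sum.elim (fun _ : Unit => y) (fun j : Fin d => π j.succ))
      (Sum.elim H (fun _ : Unit => z))) := by
    refine hAI1 k (Pol k m) (Unit ⊕ Fin d) (Fin d ⊕ Unit) (Ideal.span {p}) _ _ D hJ ?_ ?_ ?_ I1
    · intro i x hx
      rw [hmem] at hx ⊢
      obtain ⟨w, rfl⟩ := hx
      rw [Derivation.leibniz, hDp, smul_zero, add_zero, smul_eq_mul]
      exact dvd_mul_right _ _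
    · rintro (l | l) (j | j)
      · change ad (π l.succ) y ∈ _
        rw [ad_apply, hmem]
        exact hy l.succ
      · change ad (π l.succ) (π j.succ) ∈ _
        rw [ad_apply, hPPC k m d W K H f π ψ a c0 M l.succ j.succ]
        exact Ideal.zero_mem _
      · change ad f y ∈ _
        rw [ad_apply, M.fe, mul_br, C_br, mul_zero, add_zero]
        refine Ideal.mul_mem_left _ _ ?_
        exact br_prod_mem _ y Finset.univ π a fun i => (hmem _).2 (hy i)
      · change ad f (π j.succ) ∈ _
        rw [ad_apply, (hK j.succ).2]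
        exact Ideal.zero_mem _
    · -- the determinant
      have hdet : (Matrix.of fun i j => D i ((Sum.elim H (fun _ : Unit => z)) j)) =
          Matrix.fromBlocks (Matrix.of fun (l t : Fin d) => (-(π l.succ)) *
            (C ((ψ l.succ t : ℤ) : k) : Pol k m))
            (Matrix.of fun (l : Fin d) (_ : Unit) => br (π l.succ) z) 0
            (Matrix.of fun (_ _ : Unit) => br f z) := by
        ext i j
        rcases i with l | l <;> rcases j with t | t
        · change coeff _ (ad (π l.succ) (H t)) = coeff _ ((-(π l.succ)) *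
            (C ((ψ l.succ t : ℤ) : k) : Pol k m))
          rw [ad_apply, br_anti, M.eu t (ψ l.succ) (π l.succ) (hK l.succ).1 (M.wp l.succ),
            smul_eq_C_mul]
          congr 1
          ring
        · change coeff _ (ad (π l.succ) z) = coeff _ (br (π l.succ) z)
          rw [ad_apply]
        · change coeff _ (ad f (H t)) = coeff _ (0 : Pol k m)
          rw [ad_apply, br_anti, M.eu t 0 f M.fK M.f0]
          simp
        · change coeff _ (ad f z) = coeff _ (br f z)
          rw [ad_apply]
      rw [hdet, Matrix.det_fromBlocks_zero₂₁]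
      have hd1 : (Matrix.of fun (l t : Fin d) => (-(π l.succ)) *
          (C ((ψ l.succ t : ℤ) : k) : Pol k m)).det = (∏ l : Fin d, (-(π l.succ))) *
          (C (((Matrix.of fun (l t : Fin d) => ψ l.succ t).det : ℤ) : k) : Pol k m) := by
        have h1 := Matrix.det_mul_column (fun l : Fin d => (-(π l.succ) : Pol k m))
          (Matrix.of fun (l t : Fin d) => (C ((ψ l.succ t : ℤ) : k) : Pol k m))
        simp only [Matrix.of_apply] at h1
        rw [h1]
        congr 1
        have h2 := ((C : k →+* Pol k m).comp (Int.castRingHom k)).map_det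
          (Matrix.of fun (l t : Fin d) => ψ l.succ t)
        rw [RingHom.comp_apply] at h2
        have h3 : ((Int.castRingHom k) (Matrix.of fun (l t : Fin d) => ψ l.succ t).det) =
            (((Matrix.of fun (l t : Fin d) => ψ l.succ t).det : ℤ) : k) := rfl
        rw [h3] at h2
        rw [h2]
        rfl
      have hδ : (Matrix.of fun (l t : Fin d) => ψ l.succ t).det ≠ 0 := by
        intro h0
        obtain ⟨v, hv, hv2⟩ := Matrix.exists_vecMul_eq_zero_iff.2 h0
        apply hv
        rw [Fintype.linearIndependent_iff] at hlin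
        funext i
        refine hlin v ?_ i
        rw [← hv2]
        funext t
        simp [Matrix.vecMul, dotProduct, Finset.sum_apply]
      rw [hd1]
      intro hm
      rcases hJ.mem_or_mem hm with h | h
      · rcases hJ.mem_or_mem h with h | h
        · obtain ⟨l, _, hl⟩ := (Ideal.IsPrime.prod_mem_iff (hp := hJ)).1 h
          exact hπJ l.succ (by simpa using hl)
        · exact unit_notMem hJ (c := (((Matrix.of fun (l t : Fin d) => ψ l.succ t).det : ℤ) : k))
            (by exact_mod_cast hδ) h
      · rw [Matrix.det_unique] at h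
        change br f z ∈ _ at h
        rw [hmem, ← hpb] at h
        exact hz h
  -- third step
  have I3 := hAI2 k (Pol k m) _ p _ hp I2
  have h3 := M.tr _ _ ?_ I3
  · simp only [Fintype.card_sum, Fintype.card_unit, Fintype.card_fin] at h3
    omega
  · rintro (((i | i) | (i | i)) | i)
    · exact hyK
    · exact (hK i.succ).1
    · exact M.hK i
    · exact hzK
    · exact hpK

end Pool.Agent.H49.TGA
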